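import Pool.Agent.Helper84.LM.Defs

/-!
# EX7: the linear algebra (diagonal similitudes with one extra relation)
-/

set_option autoImplicit false

open Polynomial

namespace Pool.Agent.Helper84.EX7

open Pool.Agent.Helper84.LM (InfSim InLie polyFun)

variable {J : Type} [Fintype J] [DecidableEq J]

/-- The diagonal endomorphism. -/
noncomputable def DD (d : J → ℂ) : Module.End ℂ (J → ℂ) where
  toFun v := fun s => d s * v s
  map_add' u v := by ext s; simp [mul_add]
  map_smul' c v := by ext s; simp [mul_left_comm]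

omit [Fintype J] [DecidableEq J] in
@[simp] theorem DD_apply (d : J → ℂ) (v : J → ℂ) (s : J) : DD d v s = d s * v s := rfl

omit [Fintype J] [DecidableEq J] in
theorem DD_mul (d e : J → ℂ) : DD d * DD e = DD (fun s => d s * e s) := by
  ext v s
  simp [mul_assoc]

omit [Fintype J] [DecidableEq J] in
theorem DD_one : (DD (fun _ => 1) : Module.End ℂ (J → ℂ)) = 1 := by
  ext v s
  simp

theorem DD_single (d : J → ℂ) (s : J) : DD d (Pi.single s 1) = d s • Pi.single s 1 := by
  funext t
  by_cases h : t = s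
  · subst h; simp
  · simp [h]

/-- Every diagonal endomorphism preserves a subspace preserved by one with distinct entries. -/
theorem stab {U : Submodule ℂ (J → ℂ)} {y : J → ℂ} (hy : Function.Injective y)
    (hU : ∀ u ∈ U, DD y u ∈ U) (d : J → ℂ) : ∀ u ∈ U, DD d u ∈ U := by
  have key : ∀ p : ℂ[X], ∀ u ∈ U, DD (fun s => p.eval (y s)) u ∈ U := by
    intro p
    induction p using Polynomial.induction_on with
    | C a =>
      intro u hu
      have : DD (fun s => (C a).eval (y s)) u = a • u := by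
        funext s; simp
      rw [this]
      exact U.smul_mem _ hu
    | add p q hp hq =>
      intro u hu
      have : DD (fun s => (p + q).eval (y s)) u
          = DD (fun s => p.eval (y s)) u + DD (fun s => q.eval (y s)) u := by
        funext s; simp [add_mul]
      rw [this]
      exact U.add_mem (hp u hu) (hq u hu)
    | monomial n a h =>
      intro u hu
      have : DD (fun s => (C a * X ^ (n + 1)).eval (y s)) u
          = DD y (DD (fun s => (C a * X ^ n).eval (y s)) u) := by
        funext s; simp [pow_succ]; ring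
      rw [this]
      exact hU _ (h u hu)
  have hp : ∀ s, (Lagrange.interpolate Finset.univ y d).eval (y s) = d s := fun s =>
    Lagrange.eval_interpolate_at_node d (hy.injOn) (Finset.mem_univ s)
  intro u hu
  have := key (Lagrange.interpolate Finset.univ y d) u hu
  simpa only [hp] using this

/-- A subspace preserved by a diagonal endomorphism with distinct entries has a complement
preserved by all diagonal endomorphisms. -/
theorem compl_exists {U : Submodule ℂ (J → ℂ)} {y : J → ℂ} (hy : Function.Injective y)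
    (hU : ∀ u ∈ U, DD y u ∈ U) :
    ∃ U' : Submodule ℂ (J → ℂ), (∀ d : J → ℂ, ∀ u ∈ U', DD d u ∈ U') ∧ IsCompl U U' := by
  classical
  set S : Set J := {s | (Pi.single s 1 : J → ℂ) ∈ U} with hS
  refine ⟨{ carrier := {v | ∀ s ∈ S, v s = 0}
            add_mem' := ?_
            zero_mem' := ?_
            smul_mem' := ?_ }, ?_, ?_, ?_⟩
  · intro u v hu hv s hs
    simp [hu s hs, hv s hs]
  · intro s _
    rfl
  · intro c v hv s hs
    simp [hv s hs]
  · intro d u hu s hs
    show d s * u s = 0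
    rw [hu s hs, mul_zero]
  · rw [Submodule.disjoint_def]
    intro u hu hu'
    funext s
    by_cases hs : s ∈ S
    · exact hu' s hs
    · by_contra hne
      apply hs
      have h1 := stab hy hU (Pi.single s 1) u hu
      have h2 : DD (Pi.single s 1) u = u s • (Pi.single s 1 : J → ℂ) := by
        funext t
        by_cases h : t = s
        · subst h; simp
        · simp [h]
      rw [h2] at h1
      have h3 := U.smul_mem (u s)⁻¹ h1
      rw [smul_smul, inv_mul_cancel₀ hne, one_smul] at h3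
      exact h3
  · rw [codisjoint_iff, eq_top_iff]
    intro v _
    rw [Submodule.mem_sup]
    refine ⟨∑ s, (if s ∈ S then v s else 0) • (Pi.single s 1 : J → ℂ), ?_,
      fun s => if s ∈ S then 0 else v s, ?_, ?_⟩
    · refine U.sum_mem fun s _ => ?_
      by_cases hs : s ∈ S
      · exact U.smul_mem _ hs
      · simp only [if_neg hs, zero_smul]
        exact U.zero_mem
    · intro s hs
      simp [hs]
    · funext t
      rw [Pi.add_apply, Finset.sum_apply]
      rw [Finset.sum_eq_single t]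
      · by_cases hs : t ∈ S <;> simp [hs]
      · intro s _ hst
        simp [Pi.single_apply, Ne.symm hst]
      · intro h
        exact absurd (Finset.mem_univ t) h

/-- What commutes with a diagonal endomorphism with distinct entries is diagonal. -/
theorem comm_all {y : J → ℂ} (hy : Function.Injective y) {Y : Module.End ℂ (J → ℂ)}
    (h : Y * DD y = DD y * Y) (d : J → ℂ) : DD d * Y = Y * DD d := by
  have hoff : ∀ s t, s ≠ t → Y (Pi.single s 1) t = 0 := by
    intro s t hst
    have h1 := LinearMap.congr_fun h (Pi.single s 1)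
    rw [Module.End.mul_apply, Module.End.mul_apply, DD_single, map_smul] at h1
    have h2 := congrFun h1 t
    rw [Pi.smul_apply, smul_eq_mul, DD_apply] at h2
    have h3 : (y s - y t) * Y (Pi.single s 1) t = 0 := by linear_combination h2
    rcases mul_eq_zero.1 h3 with h4 | h4
    · exact absurd (hy (sub_eq_zero.1 h4)) hst
    · exact h4
  refine LinearMap.pi_ext' fun s => ?_
  ext t
  simp only [LinearMap.comp_apply, LinearMap.single_apply, Module.End.mul_apply]
  rw [DD_single, map_smul, DD_apply, Pi.smul_apply, smul_eq_mul]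
  by_cases hst : s = t
  · subst hst; rfl
  · rw [hoff s t hst, mul_zero, mul_zero]

theorem charpoly_DD (d : J → ℂ) : LinearMap.charpoly (DD d) = ∏ s, (X - C (d s)) := by
  have : DD d = Matrix.toLin' (Matrix.diagonal d) := by
    refine LinearMap.ext fun v => ?_
    funext s
    rw [Matrix.toLin'_apply, Matrix.mulVec_diagonal, DD_apply]
  rw [this, Matrix.charpoly_toLin', Matrix.charpoly_diagonal]

theorem aeval_DD (d : J → ℂ) (p : ℂ[X]) : aeval (DD d) p = DD (fun s => p.eval (d s)) := by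
  induction p using Polynomial.induction_on with
  | C a =>
    refine LinearMap.ext fun v => ?_
    funext s
    simp [Module.algebraMap_end_apply]
  | add p q hp hq =>
    rw [map_add, hp, hq]
    refine LinearMap.ext fun v => ?_
    funext s
    simp [add_mul]
  | monomial n a h =>
    rw [pow_succ, ← mul_assoc, map_mul, h, aeval_X, DD_mul]
    simp [pow_succ, mul_assoc]

theorem semisimple_DD (d : J → ℂ) : (DD d).IsSemisimple := by
  classical
  refine Module.End.isSemisimple_of_squarefree_aeval_eq_zero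
    (p := ∏ c ∈ Finset.univ.image d, (X - C c)) ?_ ?_
  · exact (separable_prod_X_sub_C_iff'.2 fun x _ y _ h => h).squarefree
  · rw [aeval_DD]
    refine LinearMap.ext fun v => ?_
    funext s
    rw [DD_apply, eval_prod]
    rw [Finset.prod_eq_zero (Finset.mem_image_of_mem d (Finset.mem_univ s))]
    · simp
    · simp

/-! ### The Lie algebra -/

section Lie

/-- The product over the coordinates of `exp (t * x s)`. -/
theorem deriv_exp (x : J → ℂ) (l : Module.End ℂ (J → ℂ) →ₗ[ℂ] ℂ) :
    HasDerivAt (fun t : ℂ => l (DD fun s => Complex.exp (t * x s))) (l (DD x)) 0 := by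
  have e1 : ∀ d : J → ℂ, DD d = ∑ s, d s • DD (Pi.single s 1 : J → ℂ) := by
    intro d
    refine LinearMap.ext fun v => ?_
    funext t
    rw [DD_apply, LinearMap.sum_apply, Finset.sum_apply, Finset.sum_eq_single t]
    · simp
    · intro s _ hst
      simp [Pi.single_apply, Ne.symm hst]
    · intro h
      exact absurd (Finset.mem_univ t) h
  have e2 : ∀ d : J → ℂ, l (DD d) = ∑ s, d s * l (DD (Pi.single s 1 : J → ℂ)) := by
    intro d
    rw [e1 d, map_sum]
    exact Finset.sum_congr rfl fun s _ => by rw [map_smul, smul_eq_mul]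
  have e3 : (fun t : ℂ => l (DD fun s => Complex.exp (t * x s))) =
      fun t : ℂ => ∑ s, Complex.exp (t * x s) * l (DD (Pi.single s 1 : J → ℂ)) :=
    funext fun t => e2 _
  rw [e3, e2 x]
  refine HasDerivAt.fun_sum fun s _ => ?_
  refine HasDerivAt.mul_const ?_ _
  have h1 : HasDerivAt (fun t : ℂ => t * x s) (x s) 0 := by
    simpa using (hasDerivAt_id (0 : ℂ)).mul_const (x s)
  have h2 := h1.cexp
  simpa using h2

/-- If all `exp (t X)` lie in `G`, then `X` lies in the Lie algebra. -/
theorem inLie_of_exp {G : Subgroup (Module.End ℂ (J → ℂ))ˣ} {x : J → ℂ}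
    (h : ∀ t : ℂ, ∃ g ∈ G, (g : Module.End ℂ (J → ℂ)) = DD fun s => Complex.exp (t * x s)) :
    InLie G (DD x) := by
  intro f hf hG
  have key : ∃ d : ℂ, HasDerivAt (fun t : ℂ => f (1 + t • DD x)) d 0 ∧
      HasDerivAt (fun t : ℂ => f (DD fun s => Complex.exp (t * x s))) d 0 := by
    clear hG
    induction hf using Algebra.adjoin_induction with
    | mem f hf =>
      obtain ⟨l, rfl⟩ := hf
      refine ⟨l (DD x), ?_, deriv_exp x l⟩
      have : (fun t : ℂ => l (1 + t • DD x)) = fun t : ℂ => l 1 + t * l (DD x) := by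
        funext t
        rw [map_add, map_smul, smul_eq_mul]
      rw [this]
      simpa using ((hasDerivAt_id (0 : ℂ)).mul_const (l (DD x))).const_add (l 1)
    | algebraMap r =>
      refine ⟨0, ?_, ?_⟩
      · exact hasDerivAt_const (0 : ℂ) r
      · exact hasDerivAt_const (0 : ℂ) r
    | add f g _ _ h1 h2 =>
      obtain ⟨d1, a1, b1⟩ := h1
      obtain ⟨d2, a2, b2⟩ := h2
      exact ⟨d1 + d2, a1.add a2, b1.add b2⟩
    | mul f g _ _ h1 h2 =>
      obtain ⟨d1, a1, b1⟩ := h1
      obtain ⟨d2, a2, b2⟩ := h2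
      have e0 : (DD fun s => Complex.exp (0 * x s)) = 1 + (0 : ℂ) • DD x := by
        simp [DD_one]
      refine ⟨_, a1.mul a2, ?_⟩
      have := b1.mul b2
      rw [e0] at this
      exact this
  obtain ⟨d, a, b⟩ := key
  have hz : (fun t : ℂ => f (DD fun s => Complex.exp (t * x s))) = fun _ => 0 := by
    funext t
    obtain ⟨g, hg, hgt⟩ := h t
    rw [← hgt]
    exact hG g hg
  rw [hz] at b
  rw [a.deriv, (hasDerivAt_const (0 : ℂ) (0 : ℂ)).unique b]

/-- The entry functional. -/
noncomputable def entry (s t : J) : Module.End ℂ (J → ℂ) →ₗ[ℂ] ℂ where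
  toFun g := g (Pi.single s 1) t
  map_add' g h := rfl
  map_smul' c g := rfl

theorem entry_mem (s t : J) : (fun g : Module.End ℂ (J → ℂ) => g (Pi.single s 1) t) ∈
    polyFun (J → ℂ) :=
  Algebra.subset_adjoin ⟨entry s t, rfl⟩

end Lie

/-! ### The form and the group -/

section Main

variable {ι : Type} [Fintype ι] [DecidableEq ι]

/-- The standard symplectic form. -/
noncomputable def form : LinearMap.BilinForm ℂ (ι ⊕ ι → ℂ) :=
  LinearMap.mk₂ ℂ (fun x y => ∑ s : ι, (x (Sum.inl s) * y (Sum.inr s) - x (Sum.inr s) * y (Sum.inl s)))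
    (fun x x' y => by
      rw [← Finset.sum_add_distrib]
      exact Finset.sum_congr rfl fun s _ => by simp only [Pi.add_apply]; ring)
    (fun c x y => by
      rw [smul_eq_mul, Finset.mul_sum]
      exact Finset.sum_congr rfl fun s _ => by simp only [Pi.smul_apply, smul_eq_mul]; ring)
    (fun x y y' => by
      rw [← Finset.sum_add_distrib]
      exact Finset.sum_congr rfl fun s _ => by simp only [Pi.add_apply]; ring)
    (fun c x y => by
      rw [smul_eq_mul, Finset.mul_sum]
      exact Finset.sum_congr rfl fun s _ => by simp only [Pi.smul_apply, smul_eq_mul]; ring)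

theorem form_apply (x y : ι ⊕ ι → ℂ) : form x y =
    ∑ s : ι, (x (Sum.inl s) * y (Sum.inr s) - x (Sum.inr s) * y (Sum.inl s)) := rfl

theorem form_alt (x : ι ⊕ ι → ℂ) : form x x = 0 := by
  rw [form_apply]
  exact Finset.sum_eq_zero fun s _ => by ring

theorem form_swap (x y : ι ⊕ ι → ℂ) : form x y = - form y x := by
  rw [form_apply, form_apply, ← Finset.sum_neg_distrib]
  exact Finset.sum_congr rfl fun s _ => by ring

theorem form_inr (x : ι ⊕ ι → ℂ) (s : ι) : form x (Pi.single (Sum.inr s) 1) = x (Sum.inl s) := by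
  rw [form_apply, Finset.sum_eq_single s]
  · simp
  · intro t _ h
    simp [h]
  · intro h
    exact absurd (Finset.mem_univ s) h

theorem form_inl (x : ι ⊕ ι → ℂ) (s : ι) :
    form x (Pi.single (Sum.inl s) 1) = - x (Sum.inr s) := by
  rw [form_apply, Finset.sum_eq_single s]
  · simp
  · intro t _ h
    simp [h]
  · intro h
    exact absurd (Finset.mem_univ s) h

theorem form_nondeg : (form : LinearMap.BilinForm ℂ (ι ⊕ ι → ℂ)).Nondegenerate := by
  have h : ∀ x : ι ⊕ ι → ℂ, (∀ y, form x y = 0) → x = 0 := by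
    intro x hx
    funext s
    rcases s with s | s
    · have := hx (Pi.single (Sum.inr s) 1)
      rw [form_inr] at this
      exact this
    · have := hx (Pi.single (Sum.inl s) 1)
      rw [form_inl, neg_eq_zero] at this
      exact this
  refine ⟨h, fun y hy => h y fun x => ?_⟩
  rw [form_swap, hy x, neg_zero]

theorem form_DD {d : ι ⊕ ι → ℂ} {c : ℂ} (hd : ∀ s, d (Sum.inl s) * d (Sum.inr s) = c)
    (x y : ι ⊕ ι → ℂ) : form (DD d x) (DD d y) = c * form x y := by
  rw [form_apply, form_apply, Finset.mul_sum]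
  refine Finset.sum_congr rfl fun s _ => ?_
  simp only [DD_apply]
  rw [← hd s]
  ring

/-- The group. -/
def grp (a b : ι) : Subgroup (Module.End ℂ (ι ⊕ ι → ℂ))ˣ where
  carrier := {g | ∃ (d : ι ⊕ ι → ℂ) (c : ℂ), (g : Module.End ℂ (ι ⊕ ι → ℂ)) = DD d ∧
    (∀ s, d s ≠ 0) ∧ (∀ s, d (Sum.inl s) * d (Sum.inr s) = c) ∧
    d (Sum.inl a) ^ 3 = c * d (Sum.inl b)}
  one_mem' := ⟨fun _ => 1, 1, by rw [DD_one]; rfl, fun _ => one_ne_zero, fun _ => by norm_num,
    by norm_num⟩
  mul_mem' := by
    rintro g g' ⟨d, c, h1, h2, h3, h4⟩ ⟨d', c', h1', h2', h3', h4'⟩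
    refine ⟨fun s => d s * d' s, c * c', ?_, fun s => mul_ne_zero (h2 s) (h2' s), fun s => ?_, ?_⟩
    · rw [Units.val_mul, h1, h1', DD_mul]
    · rw [← h3 s, ← h3' s]; ring
    · rw [mul_pow, h4, h4']; ring
  inv_mem' := by
    rintro g ⟨d, c, h1, h2, h3, h4⟩
    refine ⟨fun s => (d s)⁻¹, c⁻¹, ?_, fun s => inv_ne_zero (h2 s), fun s => ?_, ?_⟩
    · have h5 : (g : Module.End ℂ (ι ⊕ ι → ℂ)) * DD (fun s => (d s)⁻¹) = 1 := by
        rw [h1, DD_mul, ← DD_one]
        congr 1
        funext s
        exact mul_inv_cancel₀ (h2 s)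
      have h6 : g * g⁻¹ = 1 := mul_inv_cancel g
      calc ((g⁻¹ : (Module.End ℂ (ι ⊕ ι → ℂ))ˣ) : Module.End ℂ (ι ⊕ ι → ℂ))
          = ((g⁻¹ : (Module.End ℂ (ι ⊕ ι → ℂ))ˣ) : Module.End ℂ (ι ⊕ ι → ℂ)) *
            ((g : Module.End ℂ (ι ⊕ ι → ℂ)) * DD (fun s => (d s)⁻¹)) := by rw [h5, mul_one]
        _ = DD (fun s => (d s)⁻¹) := by rw [← mul_assoc, Units.inv_mul, one_mul]
    · rw [← mul_inv, h3 s]
    · rw [inv_pow, h4, mul_inv]

/-- Elements of the Lie algebra. -/
theorem inLie_grp {a b : ι} {x : ι ⊕ ι → ℂ} {c : ℂ}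
    (h1 : ∀ s, x (Sum.inl s) + x (Sum.inr s) = c)
    (h2 : 3 * x (Sum.inl a) = c + x (Sum.inl b)) : InLie (grp a b) (DD x) := by
  apply inLie_of_exp
  intro t
  have hu : (DD fun s => Complex.exp (t * x s)) * (DD fun s => Complex.exp (-(t * x s))) = 1 := by
    rw [DD_mul, ← DD_one]
    congr 1
    funext s
    rw [← Complex.exp_add, add_neg_cancel, Complex.exp_zero]
  have hu' : (DD fun s => Complex.exp (-(t * x s))) * (DD fun s => Complex.exp (t * x s)) = 1 := by
    rw [DD_mul, ← DD_one]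
    congr 1
    funext s
    rw [← Complex.exp_add, neg_add_cancel, Complex.exp_zero]
  refine ⟨⟨_, _, hu, hu'⟩, ⟨fun s => Complex.exp (t * x s), Complex.exp (t * c), rfl,
    fun s => Complex.exp_ne_zero _, fun s => ?_, ?_⟩, rfl⟩
  · rw [← Complex.exp_add, ← h1 s]; congr 1; ring
  · rw [← Complex.exp_nat_mul, ← Complex.exp_add]
    congr 1
    push_cast
    linear_combination t * h2

/-- A necessary condition. -/
theorem rel_of_inLie {a b : ι} {X : Module.End ℂ (ι ⊕ ι → ℂ)} (h : InLie (grp a b) X) :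
    3 * X (Pi.single (Sum.inl a) 1) (Sum.inl a) =
      2 * X (Pi.single (Sum.inl b) 1) (Sum.inl b) + X (Pi.single (Sum.inr b) 1) (Sum.inr b) := by
  set A := X (Pi.single (Sum.inl a) 1) (Sum.inl a) with hA
  set B := X (Pi.single (Sum.inl b) 1) (Sum.inl b) with hB
  set B' := X (Pi.single (Sum.inr b) 1) (Sum.inr b) with hB'
  have h1 := h (fun g => (g (Pi.single (Sum.inl a) 1) (Sum.inl a)) ^ 3
      - (g (Pi.single (Sum.inl b) 1) (Sum.inl b)) ^ 2 *
        (g (Pi.single (Sum.inr b) 1) (Sum.inr b))) ?_ ?_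
  · have e : (fun t : ℂ => ((1 + t • X) (Pi.single (Sum.inl a) 1 : ι ⊕ ι → ℂ) (Sum.inl a)) ^ 3
      - ((1 + t • X) (Pi.single (Sum.inl b) 1 : ι ⊕ ι → ℂ) (Sum.inl b)) ^ 2 *
        ((1 + t • X) (Pi.single (Sum.inr b) 1 : ι ⊕ ι → ℂ) (Sum.inr b)))
        = fun t : ℂ => (1 + t * A) ^ 3 - (1 + t * B) ^ 2 * (1 + t * B') := by
      funext t
      simp [hA, hB, hB']
    rw [e] at h1
    have l : ∀ c : ℂ, HasDerivAt (fun t : ℂ => 1 + t * c) c 0 := fun c => by
      simpa using ((hasDerivAt_id (0 : ℂ)).mul_const c).const_add 1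
    have h2 := (((l A).fun_pow 3).fun_sub (((l B).fun_pow 2).fun_mul (l B'))).deriv
    rw [h2] at h1
    simp at h1
    linear_combination h1
  · exact Subalgebra.sub_mem _ (Subalgebra.pow_mem _ (entry_mem _ _) 3)
      (Subalgebra.mul_mem _ (Subalgebra.pow_mem _ (entry_mem _ _) 2) (entry_mem _ _))
  · rintro g ⟨d, c, h1, h2, h3, h4⟩
    simp only [h1, DD_single, Pi.smul_apply, Pi.single_eq_same, smul_eq_mul, mul_one]
    rw [h4, ← h3 b]
    ring

/-- Off-diagonal entries vanish. -/
theorem diag_of_inLie {a b : ι} {X : Module.End ℂ (ι ⊕ ι → ℂ)} (h : InLie (grp a b) X) :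
    ∃ x, X = DD x := by
  have hoff : ∀ s t, s ≠ t → X (Pi.single s 1) t = 0 := by
    intro s t hst
    have h1 := h (fun g => g (Pi.single s 1) t) (entry_mem s t) ?_
    · have e : (fun u : ℂ => (1 + u • X) (Pi.single s 1 : ι ⊕ ι → ℂ) t)
          = fun u : ℂ => u * X (Pi.single s 1) t := by
        funext u
        simp [Pi.single_apply, Ne.symm hst]
      rw [e] at h1
      have h2 : HasDerivAt (fun u : ℂ => u * X (Pi.single s 1) t) (X (Pi.single s 1) t) 0 := by
        simpa using (hasDerivAt_id (0 : ℂ)).mul_const (X (Pi.single s 1) t)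
      rw [h2.deriv] at h1
      exact h1
    · rintro g ⟨d, c, h1, -⟩
      simp only [h1, DD_single]
      simp [Pi.single_apply, Ne.symm hst]
  refine ⟨fun s => X (Pi.single s 1) s, ?_⟩
  refine LinearMap.pi_ext' fun s => ?_
  ext t
  simp only [LinearMap.comp_apply, LinearMap.single_apply]
  rw [DD_single, Pi.smul_apply, smul_eq_mul]
  by_cases hst : s = t
  · subst hst; simp
  · rw [hoff s t hst]; simp [Ne.symm hst]

/-- An element with distinct entries. -/
theorem exists_sep (a b : ι) (hab : a ≠ b) : ∃ y : ι ⊕ ι → ℂ, Function.Injective y ∧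
    (∀ s, y (Sum.inl s) + y (Sum.inr s) = 0) ∧ 3 * y (Sum.inl a) = 0 + y (Sum.inl b) := by
  let n : ι → ℕ := fun s => if s = a then 1 else if s = b then 3 else
    4 + (Fintype.equivFin ι s : ℕ)
  have hpos : ∀ s, 0 < n s := by
    intro s
    simp only [n]
    split_ifs <;> omega
  have hinj : ∀ s t, n s = n t → s = t := by
    intro s t h
    simp only [n] at h
    split_ifs at h with h1 h2 h3 h4 h5 h6 h7
    all_goals first
      | omega
      | (subst_vars; rfl)
      | (have := (Fintype.equivFin ι).injective (Fin.ext (by omega : (Fintype.equivFin ι s : ℕ) = (Fintype.equivFin ι t : ℕ))); exact this)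
  refine ⟨Sum.elim (fun s => (n s : ℂ)) fun s => -(n s : ℂ), ?_, ?_, ?_⟩
  · rintro (s | s) (t | t) h
    · simp only [Sum.elim_inl, Nat.cast_inj] at h
      rw [hinj s t h]
    · exfalso
      simp only [Sum.elim_inl, Sum.elim_inr] at h
      have : ((n s + n t : ℕ) : ℂ) = 0 := by push_cast; rw [h]; ring
      rw [Nat.cast_eq_zero] at this
      have := hpos s
      omega
    · exfalso
      simp only [Sum.elim_inl, Sum.elim_inr] at h
      have : ((n s + n t : ℕ) : ℂ) = 0 := by push_cast; rw [← h]; ring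
      rw [Nat.cast_eq_zero] at this
      have := hpos s
      omega
    · simp only [Sum.elim_inr, neg_inj, Nat.cast_inj] at h
      rw [hinj s t h]
  · intro s
    simp
  · simp only [Sum.elim_inl, n, if_true, if_neg (Ne.symm hab)]
    norm_num

/-- E7: the linear algebra. -/
theorem core (q : ℂ) (hq : q ≠ 0) (z : ι → ℂ)
    (hz : ∀ s, z s ≠ 0) (a b : ι) (hab : a ≠ b) (hrel : z a ^ 3 = q * z b) :
    ∃ (ψ : LinearMap.BilinForm ℂ (ι ⊕ ι → ℂ)) (G : Subgroup (Module.End ℂ (ι ⊕ ι → ℂ))ˣ)
      (γ : (Module.End ℂ (ι ⊕ ι → ℂ))ˣ) (B : Module.End ℂ (ι ⊕ ι → ℂ)),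
      ψ.Nondegenerate ∧ (∀ x, ψ x x = 0) ∧ γ ∈ G ∧
      (∀ g ∈ G, ∃ c : ℂ, ∀ x y, ψ ((g : Module.End ℂ (ι ⊕ ι → ℂ)) x)
        ((g : Module.End ℂ (ι ⊕ ι → ℂ)) y) = c * ψ x y) ∧
      (∀ U : Submodule ℂ (ι ⊕ ι → ℂ), (∀ X, InLie G X → ∀ u ∈ U, X u ∈ U) →
        ∃ U' : Submodule ℂ (ι ⊕ ι → ℂ), (∀ X, InLie G X → ∀ u ∈ U', X u ∈ U') ∧ IsCompl U U') ∧
      (γ : Module.End ℂ (ι ⊕ ι → ℂ)).IsSemisimple ∧
      (∀ x y, ψ ((γ : Module.End ℂ (ι ⊕ ι → ℂ)) x) ((γ : Module.End ℂ (ι ⊕ ι → ℂ)) y) =
        q * ψ x y) ∧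
      LinearMap.charpoly (γ : Module.End ℂ (ι ⊕ ι → ℂ)) =
        ∏ s, ((X - C (z s)) * (X - C (q / z s))) ∧
      (∀ s, (γ : Module.End ℂ (ι ⊕ ι → ℂ)) (Pi.single s 1) =
        (Sum.elim z (fun t => q / z t) s) • Pi.single s 1) ∧
      InLie G 0 ∧ ¬ InLie G B ∧ InfSim ψ B ∧
      ∀ Y : Module.End ℂ (ι ⊕ ι → ℂ), (∀ Z, InLie G Z → Y * Z = Z * Y) → B * Y = Y * B := by
  set d : ι ⊕ ι → ℂ := Sum.elim z (fun t => q / z t) with hd
  have hd0 : ∀ s, d s ≠ 0 := by
    rintro (s | s)
    · exact hz s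
    · exact div_ne_zero hq (hz s)
  have hdq : ∀ s, d (Sum.inl s) * d (Sum.inr s) = q := fun s => by
    simp only [hd, Sum.elim_inl, Sum.elim_inr]
    exact mul_div_cancel₀ q (hz s)
  have hu : DD d * DD (fun s => (d s)⁻¹) = 1 := by
    rw [DD_mul, ← DD_one]; congr 1; funext s; exact mul_inv_cancel₀ (hd0 s)
  have hu' : DD (fun s => (d s)⁻¹) * DD d = 1 := by
    rw [DD_mul, ← DD_one]; congr 1; funext s; exact inv_mul_cancel₀ (hd0 s)
  obtain ⟨y, hy, hy1, hy2⟩ := exists_sep a b hab
  have hyL : InLie (grp a b) (DD y) := inLie_grp hy1 hy2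
  set β : ι ⊕ ι → ℂ := fun s => if s = Sum.inl a then 1 else if s = Sum.inr a then -1 else 0
    with hβ
  refine ⟨form, grp a b, ⟨DD d, DD (fun s => (d s)⁻¹), hu, hu'⟩, DD β, form_nondeg, form_alt,
    ⟨d, q, rfl, hd0, hdq, ?_⟩, ?_, ?_, ?_, ?_, ?_, ?_, ?_, ?_, ?_, ?_⟩
  · simpa [hd] using hrel
  · rintro g ⟨e, c, h1, -, h3, -⟩
    exact ⟨c, fun x y => by rw [h1]; exact form_DD h3 x y⟩
  · intro U hU
    obtain ⟨U', h1, h2⟩ := compl_exists hy (hU _ hyL)
    refine ⟨U', fun X hX u hu => ?_, h2⟩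
    obtain ⟨x, rfl⟩ := diag_of_inLie hX
    exact h1 x u hu
  · exact semisimple_DD d
  · exact form_DD hdq
  · show LinearMap.charpoly (DD d) = _
    rw [charpoly_DD, Fintype.prod_sum_type, ← Finset.prod_mul_distrib]
    rfl
  · intro s
    exact DD_single d s
  · have h0 : InLie (grp a b) (DD (fun _ => 0)) :=
      inLie_grp (c := 0) (fun _ => by norm_num) (by norm_num)
    have e0 : (DD (fun _ => 0) : Module.End ℂ (ι ⊕ ι → ℂ)) = 0 := by
      refine LinearMap.ext fun v => ?_
      funext s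
      simp
    rwa [e0] at h0
  · intro h
    have h1 := rel_of_inLie h
    rw [DD_single, DD_single, DD_single] at h1
    simp [hβ, Ne.symm hab] at h1
  · refine ⟨0, fun x y => ?_⟩
    rw [form_apply, form_apply, ← Finset.sum_add_distrib, zero_mul]
    refine Finset.sum_eq_zero fun s _ => ?_
    simp only [DD_apply, hβ]
    by_cases hs : s = a
    · subst hs; simp
    · simp [hs]
  · intro Y hY
    exact comm_all hy (hY _ hyL) β

end Main

end Pool.Agent.Helper84.EX7
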